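import Mathlib

open Topology Filter

namespace Pool.Agent.Results.MP_ebea7e_gt.ClosedSubgroupNotKR

/-- `X` is a `k_ℝ`-space: every real function on `X` whose restriction to each compact subset is
continuous is continuous. -/
def IsKR (X : Type) [TopologicalSpace X] : Prop :=
  ∀ f : X → ℝ, (∀ K : Set X, IsCompact K → Continuous (K.domRestrict f)) → Continuous f

/-- A power of a discrete space is a `k_ℝ`-space (a special case of a theorem of Noble). -/
theorem isKR_pi {I D : Type} [TopologicalSpace D] [DiscreteTopology D] : IsKR (I → D) := by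
  classical
  intro f hf
  have hf' : ∀ K : Set (I → D), IsCompact K → ContinuousOn f K := fun K hK =>
    continuousOn_iff_continuous_domRestrict.2 (hf K hK)
  rw [continuous_iff_continuousAt]
  intro a
  by_contra hcon
  rw [Metric.continuousAt_iff'] at hcon
  push Not at hcon
  obtain ⟨ε, hε, hfr⟩ := hcon
  -- basic neighbourhoods
  have nb : ∀ (x : I → D) (s : Set (I → D)), s ∈ 𝓝 x →
      ∃ F : Finset I, ∀ y : I → D, (∀ i ∈ F, y i = x i) → y ∈ s := by
    intro x s hs
    rw [nhds_pi, Filter.mem_pi] at hs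
    obtain ⟨F, hF, t, ht, hts⟩ := hs
    refine ⟨hF.toFinset, fun y hy => hts ?_⟩
    intro i hi
    rw [hy i (hF.mem_toFinset.2 hi)]
    exact mem_of_mem_nhds (ht i)
  have key : ∀ G : Finset I, ∃ y : I → D, ∃ F : Finset I, (∀ i ∈ G, y i = a i) ∧
      (∀ i, i ∉ F → y i = a i) ∧ ε / 2 ≤ dist (f y) (f a) := by
    intro G
    have hG : {y : I → D | ∀ i ∈ G, y i = a i} ∈ 𝓝 a := by
      have : {y : I → D | ∀ i ∈ G, y i = a i} = ⋂ i ∈ G, (fun y : I → D => y i) ⁻¹' {a i} := by
        ext y; simp
      rw [this]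
      refine (Filter.biInter_finset_mem G).2 fun i _ => ?_
      exact (continuous_apply i).continuousAt.preimage_mem_nhds (by simp)
    obtain ⟨x, hx1, hx2⟩ := (hfr.and_eventually hG).exists
    have hK : IsCompact {y : I → D | ∀ i, y i ∈ ({a i, x i} : Set D)} :=
      isCompact_pi_infinite fun i => (Set.toFinite _).isCompact
    have hc := hf' _ hK x (by intro i; simp)
    rw [Metric.continuousWithinAt_iff'] at hc
    have h2 := hc (ε / 2) (by positivity)
    rw [eventually_nhdsWithin_iff] at h2
    obtain ⟨F, hF⟩ := nb x _ h2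
    refine ⟨fun i => if i ∈ F then x i else a i, F, ?_, ?_, ?_⟩
    · intro i hi
      dsimp only
      split_ifs with h
      · exact hx2 i hi
      · rfl
    · intro i hi
      simp [hi]
    · have h3 := hF (fun i => if i ∈ F then x i else a i) (by intro i hi; simp [hi])
      have h4 := h3 (by
        intro i
        dsimp only
        split_ifs <;> simp)
      have h5 : ε ≤ dist (f x) (f a) := hx1
      have h6 := dist_triangle_left (f x) (f a) (f (fun i => if i ∈ F then x i else a i))
      linarith
  choose Y F hY1 hY2 hY3 using key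
  let G : ℕ → Finset I := fun n => Nat.rec ∅ (fun _ g => g ∪ F g) n
  have hG1 : ∀ n, G (n + 1) = G n ∪ F (G n) := fun n => rfl
  have hmono : Monotone G := monotone_nat_of_le_succ fun n => by
    rw [hG1]; exact Finset.subset_union_left
  have hlim : Tendsto (fun n => Y (G n)) atTop (𝓝 a) := by
    rw [tendsto_pi_nhds]
    intro i
    rcases Classical.em (∃ m : ℕ, i ∈ G m) with h | h
    · obtain ⟨m, hm⟩ := h
      refine tendsto_const_nhds.congr' ?_
      filter_upwards [eventually_ge_atTop m] with n hn
      exact (hY1 (G n) i (hmono hn hm)).symm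
    · push Not at h
      refine tendsto_const_nhds.congr fun n => ?_
      refine (hY2 (G n) i fun hc => h (n + 1) ?_).symm
      rw [hG1]
      exact Finset.mem_union_right _ hc
  have hK := hlim.isCompact_insert_range
  have hc := hf' _ hK a (Set.mem_insert _ _)
  have hlim2 : Tendsto (fun n => Y (G n)) atTop
      (𝓝[insert a (Set.range fun n => Y (G n))] a) := by
    rw [tendsto_nhdsWithin_iff]
    exact ⟨hlim, Eventually.of_forall fun n => Set.mem_insert_of_mem _ ⟨n, rfl⟩⟩
  have h1 := hc.tendsto.comp hlim2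
  rw [Metric.tendsto_atTop] at h1
  obtain ⟨N, hN⟩ := h1 (ε / 2) (by positivity)
  have := hN N le_rfl
  have h2 := hY3 (G N)
  simp only [Function.comp_apply] at this
  linarith

/-- The group `{0,1}^ℝ` with the discrete topology. -/
def D : Type := ℝ → Multiplicative (ZMod 2)

noncomputable instance : CommGroup D := inferInstanceAs (CommGroup (ℝ → Multiplicative (ZMod 2)))
instance : TopologicalSpace D := ⊥
instance : DiscreteTopology D := ⟨rfl⟩

/-- Countable subsets of `ℝ`. -/
abbrev I : Type := {A : Set ℝ // A.Countable}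

/-- The closed subgroup. -/
def H : Subgroup (I → D) where
  carrier := {g | (∀ A B : I, ∀ t, t ∈ A.1 → t ∈ B.1 → g A t = g B t) ∧
    ∀ A : I, ∀ t, t ∉ A.1 → g A t = 1}
  mul_mem' := by
    rintro g h ⟨h1, h2⟩ ⟨h3, h4⟩
    refine ⟨fun A B t hA hB => ?_, fun A t hA => ?_⟩
    · show g A t * h A t = g B t * h B t
      rw [h1 A B t hA hB, h3 A B t hA hB]
    · show g A t * h A t = 1
      rw [h2 A t hA, h4 A t hA, mul_one]
  one_mem' := ⟨fun _ _ _ _ _ => rfl, fun _ _ _ => rfl⟩
  inv_mem' := by
    rintro g ⟨h1, h2⟩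
    refine ⟨fun A B t hA hB => ?_, fun A t hA => ?_⟩
    · show (g A t)⁻¹ = (g B t)⁻¹
      rw [h1 A B t hA hB]
    · show (g A t)⁻¹ = 1
      rw [h2 A t hA, inv_one]

theorem isClosed_H : IsClosed (H : Set (I → D)) := by
  have : (H : Set (I → D)) = (⋂ A : I, ⋂ B : I, {g : I → D | ∀ t, t ∈ A.1 → t ∈ B.1 →
      g A t = g B t}) ∩ ⋂ A : I, {g : I → D | ∀ t, t ∉ A.1 → g A t = 1} := by
    ext g
    simp only [Set.mem_inter_iff, Set.mem_iInter, Set.mem_ofPred_eq]
    rfl
  rw [this]
  refine IsClosed.inter (isClosed_iInter fun A => isClosed_iInter fun B => ?_)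
    (isClosed_iInter fun A => ?_)
  · have h : IsClosed {p : D × D | ∀ t, t ∈ A.1 → t ∈ B.1 → p.1 t = p.2 t} := isClosed_discrete _
    exact h.preimage (f := fun g : I → D => (g A, g B))
      ((continuous_apply A).prodMk (continuous_apply B))
  · have h : IsClosed {p : D | ∀ t, t ∉ A.1 → p t = 1} := isClosed_discrete _
    exact h.preimage (f := fun g : I → D => g A) (continuous_apply A)

/-- Compact subsets of `H` are finite. -/
theorem finite_of_isCompact (K : Set H) (hK : IsCompact K) : K.Finite := by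
  by_contra hinf
  have hinf' : K.Infinite := hinf
  let d := hinf'.natEmbedding
  have hd : ∀ m n : ℕ, m ≠ n → ∃ t : ℝ, ∃ A : I, (d m).1.1 A t ≠ (d n).1.1 A t := by
    intro m n hmn
    by_contra hc
    push Not at hc
    apply hmn
    apply d.injective
    apply Subtype.ext
    apply Subtype.ext
    funext A
    exact funext fun t => hc t A
  have hd' : ∀ m n : ℕ, ∃ t : ℝ, m ≠ n → ∃ A : I, (d m).1.1 A t ≠ (d n).1.1 A t := by
    intro m n
    by_cases h : m = n
    · exact ⟨0, fun h' => absurd h h'⟩
    · obtain ⟨t, ht⟩ := hd m n h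
      exact ⟨t, fun _ => ht⟩
  choose t ht using hd'
  let A : I := ⟨Set.range fun p : ℕ × ℕ => t p.1 p.2, Set.countable_range _⟩
  have himg : ((fun g : H => g.1 A) '' K).Finite := by
    have hc : IsCompact ((fun g : H => g.1 A) '' K) :=
      hK.image ((continuous_apply A).comp continuous_subtype_val)
    exact isCompact_iff_finite.1 hc
  have hinj : Function.Injective fun n : ℕ => (d n).1.1 A := by
    intro m n hmn
    by_contra hne
    obtain ⟨B, hB⟩ := ht m n hne
    have hA : t m n ∈ A.1 := ⟨(m, n), rfl⟩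
    have hmn' : (d m).1.1 A (t m n) = (d n).1.1 A (t m n) := congrFun hmn _
    by_cases hBt : t m n ∈ B.1
    · exact hB (by rw [(d m).1.2.1 B A _ hBt hA, (d n).1.2.1 B A _ hBt hA, hmn'])
    · exact hB (by rw [(d m).1.2.2 B _ hBt, (d n).1.2.2 B _ hBt])
  have hsub : Set.range (fun n : ℕ => (d n).1.1 A) ⊆ (fun g : H => g.1 A) '' K := by
    rintro _ ⟨n, rfl⟩
    exact ⟨(d n).1, (d n).2, rfl⟩
  exact (Set.infinite_range_of_injective hinj) (himg.subset hsub)

theorem not_isKR_H : ¬ IsKR H := by
  classical
  intro hkr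
  have hcont : Continuous (fun g : H => if g = 1 then (1 : ℝ) else 0) := by
    apply hkr
    intro K hK
    have hfin := finite_of_isCompact K hK
    haveI : Finite K := hfin
    haveI : DiscreteTopology K := inferInstance
    exact continuous_of_discreteTopology
  have hopen : IsOpen ({1} : Set H) := by
    have h := hcont.isOpen_preimage (Set.Ioi (1 / 2)) isOpen_Ioi
    convert h using 1
    ext g
    simp only [Set.mem_singleton_iff, Set.mem_preimage, Set.mem_Ioi]
    split_ifs with h
    · simp [h]; norm_num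
    · simp [h]
  rw [isOpen_induced_iff] at hopen
  obtain ⟨U, hU, hU1⟩ := hopen
  have h1U : (1 : I → D) ∈ U := by
    have : (1 : H) ∈ (Subtype.val ⁻¹' U : Set H) := by rw [hU1]; rfl
    exact this
  rw [isOpen_pi_iff] at hU
  obtain ⟨F, u, hu1, hu2⟩ := hU 1 h1U
  have hcount : (⋃ A ∈ F, A.1 : Set ℝ).Countable :=
    F.finite_toSet.countable.biUnion fun A _ => A.2
  have hne : ∃ t : ℝ, t ∉ (⋃ A ∈ F, A.1 : Set ℝ) := by
    by_contra hc
    push Not at hc
    exact Cardinal.not_countable_real (hcount.mono fun t _ => hc t)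
  obtain ⟨t, ht⟩ := hne
  let s : Multiplicative (ZMod 2) := Multiplicative.ofAdd 1
  have hs : s ≠ 1 := by
    intro h
    have : (1 : ZMod 2) = 0 := congrArg Multiplicative.toAdd h
    exact absurd this (by decide)
  let g : I → D := fun A => (fun r => if r ∈ A.1 ∧ r = t then s else 1 : ℝ → Multiplicative (ZMod 2))
  have hg : g ∈ H := by
    refine ⟨fun A B r hA hB => ?_, fun A r hA => ?_⟩
    · show (if r ∈ A.1 ∧ r = t then s else 1) = (if r ∈ B.1 ∧ r = t then s else 1)
      simp [hA, hB]
    · show (if r ∈ A.1 ∧ r = t then s else 1) = 1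
      simp [hA]
  have hgU : g ∈ U := by
    apply hu2
    intro A hA
    have : g A = 1 := by
      funext r
      show (if r ∈ A.1 ∧ r = t then s else 1) = 1
      rw [if_neg]
      rintro ⟨h1, rfl⟩
      exact ht (Set.mem_biUnion hA h1)
    rw [this]
    exact (hu1 A hA).2
  have hg1 : (⟨g, hg⟩ : H) ∈ ({1} : Set H) := by
    rw [← hU1]; exact hgU
  have hg2 : g = 1 := congrArg Subtype.val hg1
  have hg3 := congrFun (congrFun hg2 (⟨{t}, Set.countable_singleton t⟩ : I)) t
  apply hs
  have : (if t ∈ ({t} : Set ℝ) ∧ t = t then s else 1) = 1 := hg3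
  simpa using this

/-- **Negative answer to Q1 of MP_ebea7e_gt.** There is a Hausdorff (even abelian) topological
group that is a `k_ℝ`-space and has a closed subgroup that is not a `k_ℝ`-space. -/
theorem result : ∃ (G : Type) (_ : CommGroup G) (_ : TopologicalSpace G)
    (_ : IsTopologicalGroup G) (_ : T2Space G), IsKR G ∧
      ∃ H : Subgroup G, IsClosed (H : Set G) ∧ ¬ IsKR H :=
  ⟨I → D, inferInstance, inferInstance, inferInstance, inferInstance, isKR_pi, H, isClosed_H,
    not_isKR_H⟩

end Pool.Agent.Results.MP_ebea7e_gt.ClosedSubgroupNotKR
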